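import Pool.Agent.H75.SQ.Basic

/-!
# Quantum statistical algorithms for satisfiability (problem MP_0f8dca_lc): the sum over the
assignments near the planted one (SUM)
-/

set_option autoImplicit false

namespace Pool.Agent.H7.SQ.SUM

open Finset Matrix Pool.Agent.H75.SQ

section

variable {n : ℕ}

/-- the number of differences -/
private def dd (y z : Fin n → Bool) : ℕ := (univ.filter fun i => y i ≠ z i).card

private theorem kap_eq (y z : Fin n → Bool) : kap y z = 1 - 2 * (dd y z : ℝ) / n := rfl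

private theorem dd_le (y z : Fin n → Bool) : dd y z ≤ n := by
  have h := card_le_univ (univ.filter fun i => y i ≠ z i)
  rw [Fintype.card_fin] at h
  exact h

private theorem dd_pos {y z : Fin n → Bool} (h : y ≠ z) : 1 ≤ dd y z := by
  obtain ⟨i, hi⟩ := Function.ne_iff.1 h
  exact card_pos.2 ⟨i, mem_filter.2 ⟨mem_univ _, hi⟩⟩

private theorem kap_not (hn : 0 < n) (y z : Fin n → Bool) :
    kap y (fun i => !z i) = -kap y z := by
  have h1 : dd y z + dd y (fun i => !z i) = n := by
    have h2 := card_filter_add_card_filter_not (s := (univ : Finset (Fin n)))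
      (fun i => y i ≠ z i)
    rw [card_univ, Fintype.card_fin] at h2
    have h3 : (univ.filter fun i => y i ≠ !z i) = univ.filter fun i => ¬ y i ≠ z i := by
      refine filter_congr fun i _ => ?_
      cases y i <;> cases z i <;> simp
    unfold dd
    rw [h3]
    exact h2
  have h2 : (dd y z : ℝ) + dd y (fun i => !z i) = n := by exact_mod_cast h1
  have hn' : (n : ℝ) ≠ 0 := by positivity
  rw [kap_eq, kap_eq]
  field_simp
  linarith

private theorem kap_le_one (y z : Fin n → Bool) : kap y z ≤ 1 := by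
  rw [kap_eq]
  have : 0 ≤ 2 * (dd y z : ℝ) / n := by positivity
  linarith

private theorem neg_one_le_kap (hn : 0 < n) (y z : Fin n → Bool) : -1 ≤ kap y z := by
  rw [kap_eq]
  have h1 : (dd y z : ℝ) ≤ n := by exact_mod_cast dd_le y z
  have hn' : (0 : ℝ) < n := by exact_mod_cast hn
  have : 2 * (dd y z : ℝ) / n ≤ 2 := by
    rw [div_le_iff₀ hn']
    linarith
  linarith

/-- the generating function -/
private theorem sum_w (z : Fin n → Bool) (w : ℝ) :
    ∑ y : Fin n → Bool, w ^ dd y z = (1 + w) ^ n := by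
  have h1 : ∀ y : Fin n → Bool, w ^ dd y z = ∏ i, (if y i ≠ z i then w else 1) := by
    intro y
    rw [prod_ite, prod_const, prod_const_one, mul_one]
    rfl
  simp_rw [h1]
  have h2 := prod_univ_sum (fun _ : Fin n => (univ : Finset Bool))
    (fun (i : Fin n) (b : Bool) => (if b ≠ z i then w else (1 : ℝ)))
  rw [Fintype.piFinset_univ] at h2
  rw [← h2]
  have h3 : ∀ i : Fin n, ∑ b : Bool, (if b ≠ z i then w else (1 : ℝ)) = 1 + w := by
    intro i
    rw [Fintype.sum_bool]
    cases z i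
    · simp [add_comm]
    · simp
  simp_rw [h3]
  rw [prod_const, card_univ, Fintype.card_fin]

open Classical in
private theorem card_far (κ : ℝ) (z : Fin n → Bool) :
    (univ.filter fun y : Fin n → Bool => κ < kap y z).card ≤ far n κ := by
  unfold far
  refine card_le_card_of_injOn (fun y i => xor (y i) (z i)) ?_ ?_
  · intro y hy
    rw [mem_coe, mem_filter] at hy ⊢
    refine ⟨mem_univ _, lt_of_lt_of_le hy.2 ?_⟩
    have h1 : kap (fun _ => false) (fun i => xor (y i) (z i)) = kap y z := by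
      unfold kap
      have h2 : (univ.filter fun i : Fin n => (false : Bool) ≠ xor (y i) (z i)) =
          univ.filter fun i => y i ≠ z i := by
        refine filter_congr fun i _ => ?_
        cases y i <;> cases z i <;> simp
      rw [h2]
    rw [h1]
    exact le_abs_self _
  · intro y _ y' _ h
    funext i
    have h1 := congrFun h i
    have h2 : xor (y i) (z i) = xor (y' i) (z i) := h1
    exact Bool.xor_left_inj.1 h2

end

private theorem exp_neg_le {u : ℝ} (h0 : 0 ≤ u) (h1 : u ≤ 1) : Real.exp (-u) ≤ 1 - u / 2 := by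
  have h2 := Real.add_one_le_exp u
  have h3 : Real.exp (-u) = (Real.exp u)⁻¹ := Real.exp_neg u
  rw [h3, inv_le_comm₀ (Real.exp_pos u) (by linarith)]
  refine le_trans ?_ h2
  rw [inv_le_comm₀ (by linarith) (by linarith), ← one_div, div_le_iff₀ (by linarith)]
  nlinarith

private theorem half_pow (q : ℕ) (T : ℝ) (hq : T ≤ q) (b : ℝ) (hb0 : 0 ≤ b) (hb : b ≤ 7 / 10) :
    b ^ q ≤ (2 : ℝ) ^ (-(T / 2)) := by
  obtain ⟨r, hr⟩ : ∃ r : ℝ, r = (2 : ℝ) ^ (-(1 / 2) : ℝ) := ⟨_, rfl⟩
  have hr0 : 0 < r := by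
    rw [hr]
    positivity
  have hr2 : r * r = 1 / 2 := by
    rw [hr, ← Real.rpow_add (by norm_num)]
    norm_num
  have hr7 : 7 / 10 ≤ r := by
    by_contra hcon
    rw [not_le] at hcon
    nlinarith
  calc b ^ q ≤ r ^ q := pow_le_pow_left₀ hb0 (hb.trans hr7) q
    _ = (2 : ℝ) ^ (-(1 / 2) * q : ℝ) := by
        rw [hr, ← Real.rpow_natCast, ← Real.rpow_mul (by norm_num)]
    _ ≤ (2 : ℝ) ^ (-(T / 2)) := Real.rpow_le_rpow_of_exponent_le (by norm_num) (by linarith)

/-- one assignment near `z` -/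
private theorem point {t : ℝ} (ht : 0 < t) {n k q : ℕ} (hn : 40 ≤ t * n)
    (hn1 : 0 < n) (hk : 12 / t * Real.log n ≤ k) (hq : t * n - 1 ≤ q) (y z : Fin n → Bool)
    (hpos : 0 < kap y z) :
    ((1 + kap y z ^ k) / 2) ^ q ≤ ((1 / (n : ℝ)) ^ 3) ^ dd y z +
      (2 : ℝ) ^ (-((t * n - 1) / 2)) := by
  have hn0 : (0 : ℝ) < n := by exact_mod_cast hn1
  obtain ⟨d, hd⟩ : ∃ d : ℕ, d = dd y z := ⟨_, rfl⟩
  rw [← hd]
  obtain ⟨κ, hκ⟩ : ∃ κ : ℝ, κ = kap y z := ⟨_, rfl⟩
  have hκd : κ = 1 - 2 * (d : ℝ) / n := by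
    rw [hκ, hd, kap_eq]
  rw [← hκ] at hpos ⊢
  obtain ⟨u, hu⟩ : ∃ u : ℝ, u = 2 * d * k / n := ⟨_, rfl⟩
  have hu0 : 0 ≤ u := by
    rw [hu]
    positivity
  have hκe : κ ^ k ≤ Real.exp (-u) := by
    have h1 : κ ≤ Real.exp (-(2 * (d : ℝ) / n)) := by
      have h2 := Real.add_one_le_exp (-(2 * (d : ℝ) / n))
      rw [hκd]
      linarith
    calc κ ^ k ≤ Real.exp (-(2 * (d : ℝ) / n)) ^ k := pow_le_pow_left₀ hpos.le h1 k
      _ = Real.exp (-u) := by
          rw [← Real.exp_nat_mul, hu]
          congr 1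
          ring
  have hκ0 : 0 ≤ κ ^ k := pow_nonneg hpos.le k
  have hb0 : 0 ≤ (1 + κ ^ k) / 2 := by linarith
  rcases le_or_gt u 1 with h | h
  · have h1 : (1 + κ ^ k) / 2 ≤ Real.exp (-(u / 4)) := by
      have h2 := exp_neg_le hu0 h
      have h3 := Real.add_one_le_exp (-(u / 4))
      linarith
    have h2 : ((1 + κ ^ k) / 2) ^ q ≤ ((1 / (n : ℝ)) ^ 3) ^ d := by
      calc ((1 + κ ^ k) / 2) ^ q ≤ Real.exp (-(u / 4)) ^ q := pow_le_pow_left₀ hb0 h1 q
        _ = Real.exp (-(u / 4 * q)) := by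
            rw [← Real.exp_nat_mul]
            congr 1
            ring
        _ ≤ Real.exp (-(3 * d * Real.log n)) := by
            rw [Real.exp_le_exp, neg_le_neg_iff]
            have h3 : t * n / 2 ≤ q := by linarith
            have hlog : 0 ≤ Real.log n := Real.log_natCast_nonneg n
            have h4 : 12 / t * Real.log n * (t * n / 2) ≤ k * q :=
              mul_le_mul hk h3 (by positivity) (Nat.cast_nonneg _)
            have h5 : 12 / t * Real.log n * (t * n / 2) = 6 * Real.log n * n := by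
              field_simp
              ring
            rw [h5] at h4
            have h6 : u / 4 * q = d / 2 * (k * q) / n := by
              rw [hu]
              ring
            rw [h6, le_div_iff₀ hn0]
            calc 3 * (d : ℝ) * Real.log n * n = d / 2 * (6 * Real.log n * n) := by ring
              _ ≤ d / 2 * (k * q) := mul_le_mul_of_nonneg_left h4 (by positivity)
        _ = ((1 / (n : ℝ)) ^ 3) ^ d := by
            have h3 : 1 / (n : ℝ) = Real.exp (-Real.log n) := by
              rw [Real.exp_neg, Real.exp_log hn0, one_div]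
            rw [h3, ← pow_mul, ← Real.exp_nat_mul]
            congr 1
            push_cast
            ring
    have h3 : 0 ≤ (2 : ℝ) ^ (-((t * n - 1) / 2)) := by positivity
    linarith
  · have h1 : (1 + κ ^ k) / 2 ≤ 7 / 10 := by
      have h2 : Real.exp (-u) ≤ Real.exp (-1) := by
        rw [Real.exp_le_exp]
        linarith
      have h3 := Real.exp_neg_one_lt_d9
      have h4 : (0.3678794412 : ℝ) ≤ 4 / 10 := by norm_num
      linarith
    have h2 := half_pow q (t * n - 1) hq _ hb0 h1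
    have h3 : 0 ≤ ((1 / (n : ℝ)) ^ 3) ^ d := by positivity
    linarith

open Classical in
/-- the assignments near `z` -/
private theorem near {t κ : ℝ} (ht : 0 < t) (ht1 : t ≤ 1) (hκ : 0 < κ) {n k q : ℕ}
    (hn : 40 ≤ t * n) (hn1 : 0 < n) (hk : 12 / t * Real.log n ≤ k) (hq : t * n - 1 ≤ q)
    (hfar : (far n κ : ℝ) ≤ 2 * (2 : ℝ) ^ (t / 4 * n)) (z : Fin n → Bool) :
    ∑ y ∈ univ.filter (fun y : Fin n → Bool => κ < kap y z ∧ y ≠ z),
      ((1 + kap y z ^ k) / 2) ^ q ≤ 1 / 96 := by
  have hn0 : (0 : ℝ) < n := by exact_mod_cast hn1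
  have hn40 : (40 : ℝ) ≤ n := by nlinarith
  obtain ⟨w, hw⟩ : ∃ w : ℝ, w = (1 / (n : ℝ)) ^ 3 := ⟨_, rfl⟩
  have hw0 : 0 ≤ w := by
    rw [hw]
    positivity
  obtain ⟨β, hβ⟩ : ∃ β : ℝ, β = (2 : ℝ) ^ (-((t * n - 1) / 2)) := ⟨_, rfl⟩
  have hβ0 : 0 < β := by
    rw [hβ]
    positivity
  have h1 : ∑ y ∈ univ.filter (fun y : Fin n → Bool => κ < kap y z ∧ y ≠ z),
      ((1 + kap y z ^ k) / 2) ^ q ≤
      ∑ y ∈ univ.filter (fun y : Fin n → Bool => κ < kap y z ∧ y ≠ z), (w ^ dd y z + β) := by
    refine sum_le_sum fun y hy => ?_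
    rw [mem_filter] at hy
    rw [hw, hβ]
    exact point ht hn hn1 hk hq y z (hκ.trans hy.2.1)
  refine h1.trans ?_
  rw [sum_add_distrib, sum_const, nsmul_eq_mul]
  have h2 : ∑ y ∈ univ.filter (fun y : Fin n → Bool => κ < kap y z ∧ y ≠ z), w ^ dd y z ≤
      (1 + w) ^ n - 1 := by
    have h3 : ∑ y ∈ univ.filter (fun y : Fin n → Bool => κ < kap y z ∧ y ≠ z), w ^ dd y z ≤
        ∑ y ∈ (univ : Finset (Fin n → Bool)).erase z, w ^ dd y z := by
      refine sum_le_sum_of_subset_of_nonneg ?_ fun _ _ _ => pow_nonneg hw0 _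
      intro y hy
      rw [mem_filter] at hy
      exact mem_erase.2 ⟨hy.2.2, mem_univ _⟩
    have h4 := sum_erase_add (s := (univ : Finset (Fin n → Bool))) (fun y => w ^ dd y z)
      (mem_univ z)
    rw [sum_w] at h4
    have h5 : dd z z = 0 := by
      unfold dd
      simp
    rw [h5, pow_zero] at h4
    linarith
  have h3 : (1 + w) ^ n - 1 ≤ 2 / 1600 := by
    have h4 : (1 + w) ^ n ≤ Real.exp (n * w) := by
      rw [Real.exp_nat_mul]
      refine pow_le_pow_left₀ (by linarith) ?_ n
      have := Real.add_one_le_exp w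
      linarith
    obtain ⟨v, hv⟩ : ∃ v : ℝ, v = n * w := ⟨_, rfl⟩
    have hv0 : 0 ≤ v := by
      rw [hv]
      positivity
    have hv1 : v ≤ 1 / 1600 := by
      rw [hv, hw]
      have h5 : (n : ℝ) * (1 / n) ^ 3 = 1 / n ^ 2 := by
        field_simp
      rw [h5]
      apply one_div_le_one_div_of_le (by norm_num)
      nlinarith
    rw [← hv] at h4
    have h5 : Real.exp v ≤ 1 + 2 * v := by
      have h7 : Real.exp v ≤ (1 - v)⁻¹ := by
        rw [le_inv_comm₀ (Real.exp_pos v) (by linarith)]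
        have h8 := Real.add_one_le_exp (-v)
        rw [Real.exp_neg] at h8
        linarith
      refine h7.trans ?_
      rw [inv_le_comm₀ (by linarith) (by linarith), ← one_div, div_le_iff₀ (by linarith)]
      nlinarith
    linarith
  have h4 : ((univ.filter (fun y : Fin n → Bool => κ < kap y z ∧ y ≠ z)).card : ℝ) * β ≤
      3 / 1024 := by
    have h5 : ((univ.filter (fun y : Fin n → Bool => κ < kap y z ∧ y ≠ z)).card : ℝ) ≤
        far n κ := by
      have h6 : (univ.filter (fun y : Fin n → Bool => κ < kap y z ∧ y ≠ z)).card ≤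
          (univ.filter fun y : Fin n → Bool => κ < kap y z).card := by
        refine card_le_card fun y hy => ?_
        rw [mem_filter] at hy ⊢
        exact ⟨hy.1, hy.2.1⟩
      exact_mod_cast h6.trans (card_far κ z)
    have h6 : 2 * (2 : ℝ) ^ (t / 4 * n) * β ≤ 3 / 1024 := by
      have h7 : (2 : ℝ) ^ (t / 4 * n) * β ≤ 3 / 2 * (1 / 1024) := by
        have h8 : (2 : ℝ) ^ (t / 4 * n) * β = (2 : ℝ) ^ (1 / 2 : ℝ) * (2 : ℝ) ^ (-(t * n / 4)) := by
          rw [hβ, ← Real.rpow_add (by norm_num), ← Real.rpow_add (by norm_num)]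
          congr 1
          ring
        rw [h8]
        have h9 : (2 : ℝ) ^ (1 / 2 : ℝ) ≤ 3 / 2 := by
          obtain ⟨r, hr⟩ : ∃ r : ℝ, r = (2 : ℝ) ^ (1 / 2 : ℝ) := ⟨_, rfl⟩
          have hr0 : 0 < r := by
            rw [hr]
            positivity
          have hr2 : r * r = 2 := by
            rw [hr, ← Real.rpow_add (by norm_num)]
            norm_num
          rw [← hr]
          by_contra hcon
          rw [not_le] at hcon
          nlinarith
        have h10 : (2 : ℝ) ^ (-(t * n / 4)) ≤ 1 / 1024 := by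
          calc (2 : ℝ) ^ (-(t * n / 4)) ≤ (2 : ℝ) ^ (-(10 : ℝ)) :=
                Real.rpow_le_rpow_of_exponent_le (by norm_num) (by linarith)
            _ = 1 / 1024 := by
                rw [Real.rpow_neg (by norm_num)]
                norm_num
        exact mul_le_mul h9 h10 (by positivity) (by norm_num)
      linarith
    exact (mul_le_mul_of_nonneg_right (h5.trans hfar) hβ0.le).trans h6
  have h5 : (2 : ℝ) / 1600 + 3 / 1024 ≤ 1 / 96 := by norm_num
  linarith

/-- the assignments which agree with `a` on the first `s` positions -/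
private theorem card_A {n s : ℕ} (hs : s ≤ n) (a : Fin n → Bool) (A : Finset (Fin n → Bool))
    (hA : ∀ y, y ∈ A ↔ ∀ i : Fin n, (i : ℕ) < s → y i = a i) : A.card ≤ 2 ^ (n - s) := by
  have h1 : A.card ≤ (univ : Finset (Fin (n - s) → Bool)).card := by
    refine card_le_card_of_injOn (fun y j => y ⟨s + j, by omega⟩) (fun _ _ => by simp) ?_
    intro y hy y' hy' h
    rw [mem_coe, hA] at hy hy'
    funext i
    by_cases hi : (i : ℕ) < s
    · rw [hy i hi, hy' i hi]
    · have h2 := congrFun h ⟨(i : ℕ) - s, by omega⟩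
      have h3 : (⟨s + ((i : ℕ) - s), by omega⟩ : Fin n) = i := by
        apply Fin.ext
        change s + ((i : ℕ) - s) = i
        omega
      have h4 : y ⟨s + ((i : ℕ) - s), by omega⟩ = y' ⟨s + ((i : ℕ) - s), by omega⟩ := h2
      rw [h3] at h4
      exact h4
  rw [card_univ, Fintype.card_fun, Fintype.card_bool, Fintype.card_fin] at h1
  exact h1

/-- (SUM) the sum over the assignments near the planted one. -/
theorem pf_SUM (hBAL : T_BAL) : T_SUM := by
  classical
  intro t e he het ht1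
  have ht : 0 < t := he.trans het
  obtain ⟨κ, hκ0, hκ1, hfar⟩ := hBAL.2 (t / 4) (by positivity)
  have hlκ : Real.log κ < 0 := Real.log_neg hκ0 hκ1
  refine ⟨12 / t + 1 / (-Real.log κ), by
    have : 0 < 1 / (-Real.log κ) := one_div_pos.2 (by linarith)
    positivity, ⌈40 / t⌉₊ + ⌈10 / e⌉₊ + 1, ?_⟩
  intro n hn k q s a z hk hq hs hns hz hke
  have hn1 : 0 < n := by omega
  have hn0 : (0 : ℝ) < n := by exact_mod_cast hn1
  have htn : 40 ≤ t * n := by
    have h1 : 40 / t ≤ n := (Nat.le_ceil _).trans (by exact_mod_cast (by omega : ⌈40 / t⌉₊ ≤ n))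
    rw [div_le_iff₀ ht] at h1
    linarith
  have hen : 10 ≤ e * n := by
    have h1 : 10 / e ≤ n := (Nat.le_ceil _).trans (by exact_mod_cast (by omega : ⌈10 / e⌉₊ ≤ n))
    rw [div_le_iff₀ he] at h1
    linarith
  have hlog : 0 ≤ Real.log n := Real.log_natCast_nonneg n
  have hk1 : 12 / t * Real.log n ≤ k := by
    have h1 : 0 < 1 / (-Real.log κ) := one_div_pos.2 (by linarith)
    have h2 : 0 ≤ 1 / (-Real.log κ) * Real.log n := by positivity
    rw [add_mul] at hk
    linarith
  have hk2 : 1 / (-Real.log κ) * Real.log n ≤ k := by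
    have h2 : 0 ≤ 12 / t * Real.log n := by positivity
    rw [add_mul] at hk
    linarith
  -- powers of two
  have hA2 : ((2 : ℝ) ^ (n - s)) ≤ (2 : ℝ) ^ ((t - e) * n) := by
    rw [← Real.rpow_natCast]
    refine Real.rpow_le_rpow_of_exponent_le (by norm_num) ?_
    rw [Nat.cast_sub hs]
    exact hns
  have h2e : (2 : ℝ) ^ (-(e * n)) ≤ 1 / 1024 := by
    calc (2 : ℝ) ^ (-(e * n)) ≤ (2 : ℝ) ^ (-(10 : ℝ)) :=
          Real.rpow_le_rpow_of_exponent_le (by norm_num) (by linarith)
      _ = 1 / 1024 := by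
          rw [Real.rpow_neg (by norm_num)]
          norm_num
  have hsplit : (2 : ℝ) ^ ((t - e) * n) * (2 : ℝ) ^ (-(t * n)) = (2 : ℝ) ^ (-(e * n)) := by
    rw [← Real.rpow_add (by norm_num)]
    congr 1
    ring
  have h2q : ∀ Q : ℕ, t * n - 1 ≤ Q → 1 / (2 : ℝ) ^ Q ≤ 2 * (2 : ℝ) ^ (-(t * n)) := by
    intro Q hQ
    have h1 : 1 / (2 : ℝ) ^ Q = (2 : ℝ) ^ (-(Q : ℝ)) := by
      rw [Real.rpow_neg (by norm_num), Real.rpow_natCast, one_div]
    have h2 : 2 * (2 : ℝ) ^ (-(t * n)) = (2 : ℝ) ^ (1 + -(t * n)) := by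
      rw [Real.rpow_add (by norm_num), Real.rpow_one]
    rw [h1, h2]
    exact Real.rpow_le_rpow_of_exponent_le (by norm_num) (by linarith)
  constructor
  · obtain ⟨A, hAdef⟩ : ∃ A : Finset (Fin n → Bool), A =
        (Set.toFinite {y : Fin n → Bool | ∀ i : Fin n, (i : ℕ) < s → y i = a i}).toFinset :=
      ⟨_, rfl⟩
    have hA : ∀ y, y ∈ A ↔ ∀ i : Fin n, (i : ℕ) < s → y i = a i := by
      intro y
      rw [hAdef, Set.Finite.mem_toFinset]
      exact Iff.rfl
    rw [← hAdef]
    obtain ⟨z', hz'⟩ : ∃ z' : Fin n → Bool, z' = fun i => !z i := ⟨_, rfl⟩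
    have hkz' : ∀ y, kap y z' = -kap y z := fun y => by
      rw [hz']
      exact kap_not hn1 y z
    -- the assignments which are not near
    have hκk : κ ^ k ≤ 1 / n := by
      have h1 : κ ^ k = Real.exp (k * Real.log κ) := by
        rw [Real.exp_nat_mul, Real.exp_log hκ0]
      have h2 : 1 / (n : ℝ) = Real.exp (-Real.log n) := by
        rw [Real.exp_neg, Real.exp_log hn0, one_div]
      rw [h1, h2, Real.exp_le_exp]
      have h3 : Real.log n ≤ k * (-Real.log κ) := by
        have h4 : 0 < -Real.log κ := by linarith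
        have h5 := mul_le_mul_of_nonneg_right hk2 h4.le
        have h6 : 1 / (-Real.log κ) * Real.log n * (-Real.log κ) = Real.log n := by
          rw [mul_right_comm, one_div_mul_cancel h4.ne', one_mul]
        linarith
      linarith
    have hfarp : ∀ x : ℝ, -1 ≤ x → x ≤ 1 → x ^ k ≤ κ ^ k →
        ((1 + x ^ k) / 2) ^ q ≤ 6 * (2 : ℝ) ^ (-(t * n)) := by
      intro x hx1 hx2 hx
      have hxk : -1 ≤ x ^ k := by
        have h1 : |x ^ k| ≤ 1 := by
          rw [abs_pow]
          exact pow_le_one₀ (abs_nonneg x) (abs_le.2 ⟨hx1, hx2⟩)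
        exact (abs_le.1 h1).1
      obtain ⟨Q, hQ⟩ : ∃ Q : ℕ, Q = ⌈t * (n : ℝ) - 1⌉₊ := ⟨_, rfl⟩
      have hQ1 : t * n - 1 ≤ Q := by
        rw [hQ]
        exact Nat.le_ceil _
      have hQq : Q ≤ q := by
        rw [hQ]
        exact Nat.ceil_le.2 hq
      have hQn : Q ≤ n := by
        rw [hQ]
        refine Nat.ceil_le.2 ?_
        have : t * n ≤ 1 * n := mul_le_mul_of_nonneg_right ht1 hn0.le
        linarith
      have hn40 : (40 : ℝ) ≤ n := by nlinarith
      have hinv : 1 / (n : ℝ) ≤ 1 := by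
        rw [div_le_one hn0]
        linarith
      have hinv0 : 0 < 1 / (n : ℝ) := by positivity
      calc ((1 + x ^ k) / 2) ^ q ≤ ((1 + 1 / n) / 2) ^ q :=
            pow_le_pow_left₀ (by linarith) (by linarith) q
        _ ≤ ((1 + 1 / n) / 2) ^ Q := pow_le_pow_of_le_one (by positivity) (by linarith) hQq
        _ = (1 + 1 / n) ^ Q * (1 / 2 ^ Q) := by
            rw [div_pow]
            ring
        _ ≤ 3 * (2 * (2 : ℝ) ^ (-(t * n))) := by
            refine mul_le_mul ?_ (h2q Q hQ1) (by positivity) (by norm_num)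
            calc (1 + 1 / (n : ℝ)) ^ Q ≤ Real.exp (1 / n) ^ Q := by
                  refine pow_le_pow_left₀ (by positivity) ?_ Q
                  have := Real.add_one_le_exp (1 / (n : ℝ))
                  linarith
              _ = Real.exp (Q * (1 / n)) := by rw [← Real.exp_nat_mul]
              _ ≤ Real.exp 1 := by
                  rw [Real.exp_le_exp, mul_one_div, div_le_one hn0]
                  exact_mod_cast hQn
              _ ≤ 3 := by
                  have := Real.exp_one_lt_d9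
                  linarith
        _ = 6 * (2 : ℝ) ^ (-(t * n)) := by ring
    have hb0 : ∀ x : ℝ, -1 ≤ x → x ≤ 1 → 0 ≤ ((1 + x ^ k) / 2) ^ q := by
      intro x hx1 hx2
      have h1 : |x ^ k| ≤ 1 := by
        rw [abs_pow]
        exact pow_le_one₀ (abs_nonneg x) (abs_le.2 ⟨hx1, hx2⟩)
      have h2 := (abs_le.1 h1).1
      exact pow_nonneg (by linarith) q
    obtain ⟨g1, hg1⟩ : ∃ g : (Fin n → Bool) → ℝ, g = fun y =>
      if κ < kap y z ∧ y ≠ z then ((1 + kap y z ^ k) / 2) ^ q else 0 := ⟨_, rfl⟩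
    obtain ⟨g2, hg2⟩ : ∃ g : (Fin n → Bool) → ℝ, g = fun y =>
      if κ < kap y z' ∧ y ≠ z' then ((1 + kap y z' ^ k) / 2) ^ q else 0 := ⟨_, rfl⟩
    have hg10 : ∀ y, 0 ≤ g1 y := by
      intro y
      rw [hg1]
      change 0 ≤ if κ < kap y z ∧ y ≠ z then ((1 + kap y z ^ k) / 2) ^ q else 0
      split_ifs with h
      · exact hb0 _ (neg_one_le_kap hn1 y z) (kap_le_one y z)
      · exact le_refl 0
    have hg20 : ∀ y, 0 ≤ g2 y := by
      intro y
      rw [hg2]
      change 0 ≤ if κ < kap y z' ∧ y ≠ z' then ((1 + kap y z' ^ k) / 2) ^ q else 0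
      split_ifs with h
      · exact hb0 _ (neg_one_le_kap hn1 y z') (kap_le_one y z')
      · exact le_refl 0
    have hc0 : 0 ≤ 6 * (2 : ℝ) ^ (-(t * n)) := by positivity
    have hpt : ∀ y ∈ A, ((1 + kap y z ^ k) / 2) ^ q ≤
        6 * (2 : ℝ) ^ (-(t * n)) + g1 y + g2 y := by
      intro y hy
      rw [hA] at hy
      by_cases h1 : κ < kap y z
      · have h2 : y ≠ z := by
          obtain ⟨i, hi, hzi⟩ := hz
          intro h0
          apply hzi
          rw [← h0, hy i hi]
        have h3 : g1 y = ((1 + kap y z ^ k) / 2) ^ q := by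
          rw [hg1]
          exact if_pos ⟨h1, h2⟩
        have h4 := hg20 y
        linarith
      · by_cases h2 : Even k ∧ kap y z < -κ
        · have h3 : y ≠ z' := by
            obtain ⟨i, hi, hzi⟩ := hke h2.1
            intro h0
            have h4 := hy i hi
            rw [h0, hz'] at h4
            rw [← hzi] at h4
            revert h4
            change ¬ (!z i) = z i
            cases z i <;> simp
          have h4 : κ < kap y z' := by
            rw [hkz']
            linarith [h2.2]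
          have h5 : g2 y = ((1 + kap y z ^ k) / 2) ^ q := by
            rw [hg2]
            refine (if_pos ⟨h4, h3⟩).trans ?_
            rw [hkz', h2.1.neg_pow]
          have h6 := hg10 y
          linarith
        · have h3 : kap y z ^ k ≤ κ ^ k := by
            rw [not_and_or] at h2
            rcases le_or_gt (-κ) (kap y z) with h4 | h4
            · have h5 : |kap y z| ≤ κ := abs_le.2 ⟨h4, not_lt.1 h1⟩
              calc kap y z ^ k ≤ |kap y z ^ k| := le_abs_self _
                _ = |kap y z| ^ k := abs_pow _ _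
                _ ≤ κ ^ k := pow_le_pow_left₀ (abs_nonneg _) h5 k
            · have h5 : Odd k := by
                rcases h2 with h2 | h2
                · exact Nat.not_even_iff_odd.1 h2
                · exact absurd h4 h2
              have h6 : kap y z ^ k ≤ 0 := h5.pow_nonpos (by linarith)
              exact h6.trans (pow_nonneg hκ0.le k)
          have h4 := hfarp _ (neg_one_le_kap hn1 y z) (kap_le_one y z) h3
          have h5 := hg10 y
          have h6 := hg20 y
          linarith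
    have hs1 : ∑ y ∈ A, g1 y ≤ 1 / 96 := by
      calc ∑ y ∈ A, g1 y ≤ ∑ y, g1 y :=
            sum_le_sum_of_subset_of_nonneg (subset_univ _) fun y _ _ => hg10 y
        _ = ∑ y ∈ univ.filter (fun y : Fin n → Bool => κ < kap y z ∧ y ≠ z),
            ((1 + kap y z ^ k) / 2) ^ q := by
            rw [hg1, sum_filter]
        _ ≤ 1 / 96 := near ht ht1 hκ0 htn hn1 hk1 hq (hfar n hn1) z
    have hs2 : ∑ y ∈ A, g2 y ≤ 1 / 96 := by
      calc ∑ y ∈ A, g2 y ≤ ∑ y, g2 y :=
            sum_le_sum_of_subset_of_nonneg (subset_univ _) fun y _ _ => hg20 y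
        _ = ∑ y ∈ univ.filter (fun y : Fin n → Bool => κ < kap y z' ∧ y ≠ z'),
            ((1 + kap y z' ^ k) / 2) ^ q := by
            rw [hg2, sum_filter]
        _ ≤ 1 / 96 := near ht ht1 hκ0 htn hn1 hk1 hq (hfar n hn1) z'
    have hs3 : (A.card : ℝ) * (6 * (2 : ℝ) ^ (-(t * n))) ≤ 6 / 1024 := by
      have h1 : (A.card : ℝ) ≤ (2 : ℝ) ^ ((t - e) * n) := by
        refine le_trans ?_ hA2
        exact_mod_cast card_A hs a A hA
      calc (A.card : ℝ) * (6 * (2 : ℝ) ^ (-(t * n)))
          ≤ (2 : ℝ) ^ ((t - e) * n) * (6 * (2 : ℝ) ^ (-(t * n))) :=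
            mul_le_mul_of_nonneg_right h1 hc0
        _ = 6 * ((2 : ℝ) ^ ((t - e) * n) * (2 : ℝ) ^ (-(t * n))) := by ring
        _ ≤ 6 / 1024 := by
            rw [hsplit]
            linarith
    calc ∑ y ∈ A, ((1 + kap y z ^ k) / 2) ^ q
        ≤ ∑ y ∈ A, (6 * (2 : ℝ) ^ (-(t * n)) + g1 y + g2 y) := sum_le_sum hpt
      _ = A.card * (6 * (2 : ℝ) ^ (-(t * n))) + ∑ y ∈ A, g1 y + ∑ y ∈ A, g2 y := by
          rw [sum_add_distrib, sum_add_distrib, sum_const, nsmul_eq_mul]
      _ ≤ 1 / 32 := by linarith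
  · have h1 := h2q q hq
    calc (2 : ℝ) ^ (n - s) / 2 ^ q = (2 : ℝ) ^ (n - s) * (1 / 2 ^ q) := by ring
      _ ≤ (2 : ℝ) ^ ((t - e) * n) * (2 * (2 : ℝ) ^ (-(t * n))) :=
          mul_le_mul hA2 h1 (by positivity) (by positivity)
      _ = 2 * ((2 : ℝ) ^ ((t - e) * n) * (2 : ℝ) ^ (-(t * n))) := by ring
      _ ≤ 1 / 32 := by
          rw [hsplit]
          linarith

end Pool.Agent.H7.SQ.SUM
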